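import Mathlib

/-!
Teichmueller vectors of non-commutative polynomials can be linearly dependent.

Let `s`, `z` be two of the variables and let `h = s (s - 1) (s - 2) (s - 3)`. For each of the six ways
to write `h = a b` with `a`, `b` monic of degree two in `s`, put `f = a z b`. Then
`f ^ (m + 1) = a (z (h z) ^ m) b`, so a linear relation between the six tensors `a ⊗ b` gives a linear
relation between the powers of the six elements `f`, the same for all exponents. The six tensors lie
in a space of dimension five; the relation has the coefficients `1, -4, 3, 3, -4, 1`.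
-/

set_option autoImplicit false

namespace Pool.Agent.Results.MP_8dadf2_al.TeichDependent

/-- The Teichmueller vector `⟨r⟩ = (r, r ^ p, r ^ (p ^ 2), …)`. -/
def teich {A : Type*} [Ring A] (p : ℕ) (r : A) : ℕ → A := fun k => r ^ (p ^ k)

variable {R : Type*} [Ring R]

/-- the left factors -/
def a (s : R) : Fin 6 → R :=
  ![s * (s - 1), s * (s - 2), s * (s - 3), (s - 1) * (s - 2), (s - 1) * (s - 3), (s - 2) * (s - 3)]

/-- the right factors -/
def b (s : R) : Fin 6 → R :=
  ![(s - 2) * (s - 3), (s - 1) * (s - 3), (s - 1) * (s - 2), s * (s - 3), s * (s - 2), s * (s - 1)]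

/-- the six elements -/
def f (s z : R) (i : Fin 6) : R := a s i * z * b s i

/-- the coefficients of the relation -/
def c : Fin 6 → ℤ := ![1, -4, 3, 3, -4, 1]

lemma b_mul_a (s : R) (i : Fin 6) : b s i * a s i = s * (s - 1) * (s - 2) * (s - 3) := by
  fin_cases i <;> simp [a, b] <;> noncomm_ring

lemma pow_eq (x y z : R) (m : ℕ) : (x * z * y) ^ (m + 1) = x * (z * (y * x * z) ^ m) * y := by
  induction m with
  | zero => simp
  | succ m ih =>
    rw [pow_succ, ih, pow_succ (y * x * z) m]
    simp only [mul_assoc]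

lemma relation (s y : R) : ∑ i, c i • (a s i * y * b s i) = 0 := by
  simp only [Fin.sum_univ_six, a, b, c]
  simp
  noncomm_ring

lemma sum_pow (s z : R) (n : ℕ) : ∑ i, c i • f s z i ^ n = 0 := by
  rcases n with _ | m
  · simp only [pow_zero]
    rw [← Finset.sum_smul]
    have h : ∑ i, c i = 0 := by decide
    rw [h, zero_smul]
  · have h : ∀ i, f s z i ^ (m + 1) =
        a s i * (z * (s * (s - 1) * (s - 2) * (s - 3) * z) ^ m) * b s i := by
      intro i
      rw [f, pow_eq, b_mul_a]
    simp only [h]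
    exact relation s _

lemma map_f {T : Type*} [Ring T] (φ : R →+* T) (s z : R) (i : Fin 6) :
    φ (f s z i) = f (φ s) (φ z) i := by
  have h2 : φ 2 = 2 := map_ofNat φ 2
  have h3 : φ 3 = 3 := map_ofNat φ 3
  fin_cases i <;> simp [f, a, b, h2, h3]

lemma val (i : Fin 6) :
    f (!![4, 0; 0, 5] : Matrix (Fin 2) (Fin 2) ℤ) !![0, 1; 0, 0] i 0 1 =
      (![72, 64, 48, 60, 45, 40] : Fin 6 → ℤ) i := by
  fin_cases i <;> decide

/-- For every set `S` with at least two elements there are six non-zero elements of the free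
associative ring on `S`, no two of which are equal or opposite, and integers, all non-zero, such that
the corresponding linear combination of the `n`-th powers vanishes for every `n`. In particular, for
every `p` the Teichmueller vectors of the six elements are linearly dependent. -/
theorem result (S : Type*) [Nontrivial S] :
    ∃ (g : Fin 6 → FreeAlgebra ℤ S) (d : Fin 6 → ℤ),
      (∀ i, g i ≠ 0) ∧ (∀ i j, i ≠ j → g i ≠ g j ∧ g i ≠ - g j) ∧ (∀ i, d i ≠ 0) ∧
      (∀ n : ℕ, ∑ i, d i • g i ^ n = 0) ∧
      (∀ p : ℕ, ∑ i, d i • teich p (g i) = 0 ∧ ¬ LinearIndependent ℤ (fun i => teich p (g i))) := by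
  classical
  obtain ⟨s, z, hsz⟩ := exists_pair_ne S
  let φ : FreeAlgebra ℤ S →ₐ[ℤ] Matrix (Fin 2) (Fin 2) ℤ :=
    FreeAlgebra.lift ℤ (fun t => if t = s then !![4, 0; 0, 5] else !![0, 1; 0, 0])
  have hs : φ (FreeAlgebra.ι ℤ s) = !![4, 0; 0, 5] := by
    simp [φ]
  have hz : φ (FreeAlgebra.ι ℤ z) = !![0, 1; 0, 0] := by
    simp [φ, hsz.symm]
  let g : Fin 6 → FreeAlgebra ℤ S := f (FreeAlgebra.ι ℤ s) (FreeAlgebra.ι ℤ z)
  have hg : ∀ i, φ (g i) 0 1 = (![72, 64, 48, 60, 45, 40] : Fin 6 → ℤ) i := by
    intro i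
    have h := map_f (φ : FreeAlgebra ℤ S →+* Matrix (Fin 2) (Fin 2) ℤ)
      (FreeAlgebra.ι ℤ s) (FreeAlgebra.ι ℤ z) i
    simp only [AlgHom.coe_toRingHom] at h
    change φ (f _ _ i) 0 1 = _
    rw [h, hs, hz, val]
  have hsum : ∀ n : ℕ, ∑ i, c i • g i ^ n = 0 := fun n => sum_pow _ _ n
  have ht : ∀ p : ℕ, ∑ i, c i • teich p (g i) = 0 := by
    intro p
    funext k
    rw [Finset.sum_apply]
    exact hsum (p ^ k)
  refine ⟨g, c, ?_, ?_, by decide, hsum, fun p => ⟨ht p, ?_⟩⟩
  · intro i hi
    have h := hg i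
    rw [hi, map_zero] at h
    revert h
    fin_cases i <;> decide
  · intro i j hij
    constructor
    · intro h
      have h1 := hg i
      rw [h, hg j] at h1
      revert h1 hij
      fin_cases i <;> fin_cases j <;> decide
    · intro h
      have h1 := hg i
      rw [h, map_neg, Matrix.neg_apply, hg j] at h1
      revert h1
      fin_cases i <;> fin_cases j <;> decide
  · intro h
    have h1 := Fintype.linearIndependent_iff.1 h c (ht p) 0
    exact absurd h1 (by decide)

end Pool.Agent.Results.MP_8dadf2_al.TeichDependent
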